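import Mathlib

/-!
Package A of `Helper50.VF`: a field is generated over the constants of a derivation with
`δ ^ p = c δ` by any element which is not a constant.
-/

set_option autoImplicit false

namespace Pool.Agent.Helper8.VF

open Finset

section

variable {k K : Type} [Field k] [Field K] [Algebra k K]

/-- the span of the first `m` iterates -/
def Sp (D : K → K) (m : ℕ) : Submodule K (K → K) := Submodule.span K (Set.range fun i : Fin m => D^[(i : ℕ) + 1])

lemma it_mem (D : K → K) {m i : ℕ} (hi : i < m) : D^[i + 1] ∈ Sp D m :=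
  Submodule.subset_span ⟨⟨i, hi⟩, rfl⟩

lemma sp_mono (D : K → K) {m n : ℕ} (h : m ≤ n) : Sp D m ≤ Sp D n := by
  refine Submodule.span_le.2 ?_
  rintro _ ⟨i, rfl⟩
  exact it_mem D (lt_of_lt_of_le i.2 h)

/-- composition with a multiple of the derivation -/
lemma comp_mem (δ : Derivation k K K) (u : K) {m : ℕ} {f : K → K} (hf : f ∈ Sp δ m) :
    (fun x => u * δ (f x)) ∈ Sp δ (m + 1) := by
  refine Submodule.span_induction (p := fun f _ => (fun x => u * δ (f x)) ∈ Sp δ (m + 1)) ?_ ?_ ?_ ?_ hf
  · rintro _ ⟨i, rfl⟩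
    have h : (fun x => u * δ (δ^[(i : ℕ) + 1] x)) = u • δ^[(i : ℕ) + 1 + 1] := by
      funext x
      rw [Pi.smul_apply, smul_eq_mul, Function.iterate_succ_apply' δ ((i : ℕ) + 1)]
    rw [h]
    exact Submodule.smul_mem _ _ (it_mem _ (by omega))
  · have h : (fun x => u * δ ((0 : K → K) x)) = 0 := by
      funext x
      simp
    rw [h]
    exact Submodule.zero_mem _
  · intro f g _ _ h1 h2
    have h : (fun x => u * δ ((f + g) x)) = (fun x => u * δ (f x)) + (fun x => u * δ (g x)) := by
      funext x
      simp only [Pi.add_apply, map_add, mul_add]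
    rw [h]
    exact Submodule.add_mem _ h1 h2
  · intro a f hf h1
    have h : (fun x => u * δ ((a • f) x)) = a • (fun x => u * δ (f x)) + (u * δ a) • f := by
      funext x
      simp only [Pi.add_apply, Pi.smul_apply, smul_eq_mul, Derivation.leibniz]
      ring
    rw [h]
    exact Submodule.add_mem _ (Submodule.smul_mem _ _ h1) (Submodule.smul_mem _ _ (sp_mono _ (by omega) hf))

/-- iterates of a multiple of the derivation -/
lemma it_mul_mem (δ : Derivation k K K) (u : K) (D : K → K) (hD : ∀ x, D x = u * δ x) (n : ℕ) :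
    D^[n + 1] ∈ Sp δ (n + 1) := by
  induction n with
  | zero =>
    have h : D^[0 + 1] = u • δ^[0 + 1] := by
      funext x
      simp [hD]
    rw [h]
    exact Submodule.smul_mem _ _ (it_mem _ (by omega))
  | succ n ih =>
    have h : D^[n + 1 + 1] = fun x => u * δ (D^[n + 1] x) := by
      funext x
      rw [Function.iterate_succ_apply' D (n + 1), hD]
    rw [h]
    exact comp_mem δ u ih

/-- iterates on the powers of `b` -/
lemma it_pow (D : Derivation k K K) {b : K} (hb : D b = 1) (n m : ℕ) :
    D^[m] (b ^ n) = (n.descFactorial m : K) * b ^ (n - m) := by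
  induction m with
  | zero => simp
  | succ m ih =>
    rw [Function.iterate_succ_apply', ih, Derivation.leibniz, Derivation.leibniz_pow, hb,
      Derivation.map_natCast, smul_zero, add_zero, smul_eq_mul, smul_eq_mul, mul_one, nsmul_eq_mul,
      Nat.descFactorial_succ]
    push_cast
    rw [show n - m - 1 = n - (m + 1) by omega]
    ring

lemma it_const (D : Derivation k K K) {a : K} (ha : D a = 0) (n : ℕ) (z : K) :
    D^[n] (a * z) = a * D^[n] z := by
  induction n with
  | zero => rfl
  | succ n ih =>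
    rw [Function.iterate_succ_apply', ih, Derivation.leibniz, ha, smul_zero, add_zero, smul_eq_mul,
      Function.iterate_succ_apply']

lemma it_sub (D : Derivation k K K) (n : ℕ) (y z : K) : D^[n] (y - z) = D^[n] y - D^[n] z := by
  induction n with
  | zero => rfl
  | succ n ih => rw [Function.iterate_succ_apply', ih, map_sub, Function.iterate_succ_apply',
      Function.iterate_succ_apply']

/-- solutions of `D ^ n = 0` are polynomials in `b` -/
lemma decomp (p : ℕ) [Fact p.Prime] [CharP K p] (D : Derivation k K K) {b : K} (hb : D b = 1) (n : ℕ)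
    (hn : n ≤ p) : ∀ x : K, D^[n] x = 0 → ∃ a : ℕ → K, (∀ i, D (a i) = 0) ∧ x = ∑ i ∈ range n, a i * b ^ i := by
  induction n with
  | zero =>
    intro x hx
    exact ⟨0, fun i => map_zero D, by simpa using hx⟩
  | succ n ih =>
    intro x hx
    rw [Function.iterate_succ_apply'] at hx
    have hf : (n.factorial : K) ≠ 0 := by
      intro h
      rw [CharP.cast_eq_zero_iff K p] at h
      have := (Nat.Prime.dvd_factorial (Fact.out : p.Prime)).1 h
      omega
    obtain ⟨α, hα⟩ : ∃ α : K, α = (n.factorial : K)⁻¹ * D^[n] x := ⟨_, rfl⟩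
    have hinv : D ((n.factorial : K)⁻¹) = 0 := by
      rw [Derivation.leibniz_inv, Derivation.map_natCast, smul_zero]
    have hα0 : D α = 0 := by
      rw [hα, Derivation.leibniz, hx, hinv, smul_zero, smul_zero, add_zero]
    have h1 : D^[n] (x - α * b ^ n) = 0 := by
      rw [it_sub, it_const D hα0, it_pow D hb, Nat.descFactorial_self, Nat.sub_self, pow_zero, mul_one, hα,
        mul_comm, ← mul_assoc, mul_inv_cancel₀ hf, one_mul, sub_self]
    obtain ⟨a, ha0, ha⟩ := ih (by omega) _ h1
    refine ⟨fun i => if i = n then α else a i, fun i => ?_, ?_⟩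
    · dsimp only
      split_ifs
      · exact hα0
      · exact ha0 i
    · have h2 : ∑ i ∈ range n, (if i = n then α else a i) * b ^ i = ∑ i ∈ range n, a i * b ^ i :=
        sum_congr rfl fun i hi => by rw [if_neg (by rw [mem_range] at hi; omega)]
      rw [sub_eq_iff_eq_add] at ha
      rw [sum_range_succ]
      simp only [if_true]
      rw [h2]
      exact ha

/-- `D ^ p = 0` -/
lemma pow_p_zero (p : ℕ) [Fact p.Prime] [CharP K p] (δ : Derivation k K K) (c : k)
    (hc : ∀ x, δ^[p] x = c • δ x) (u : K) (hu : u ≠ 0) (D : Derivation k K K) (hD : ∀ x, D x = u * δ x)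
    {b : K} (hb : D b = 1) : ∀ x, D^[p] x = 0 := by
  have hp : 2 ≤ p := (Fact.out : p.Prime).two_le
  obtain ⟨q, hq⟩ : ∃ q, p = q + 1 := ⟨p - 1, by omega⟩
  have hδD : ∀ x, δ x = u⁻¹ * D x := fun x => by rw [hD, ← mul_assoc, inv_mul_cancel₀ hu, one_mul]
  -- `D ^ p` is a combination of `δ, ..., δ ^ p`
  have h1 : D^[q + 1] ∈ Sp δ (q + 1) := it_mul_mem δ u D hD q
  -- of `δ, ..., δ ^ (p - 1)`
  have h2 : Sp δ (q + 1) ≤ Sp D q := by
    refine Submodule.span_le.2 ?_
    rintro _ ⟨i, rfl⟩
    have h3 : ∀ i, i < q → δ^[i + 1] ∈ Sp D q := fun i hi =>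
      sp_mono D (by omega) (it_mul_mem D u⁻¹ δ hδD i)
    by_cases hi : (i : ℕ) < q
    · exact h3 i hi
    · have hi' : (i : ℕ) = q := by omega
      have h4 : δ^[(i : ℕ) + 1] = (algebraMap k K c) • δ^[0 + 1] := by
        funext x
        rw [hi', ← hq, hc x]
        simp [Algebra.smul_def]
      change δ^[(i : ℕ) + 1] ∈ Sp D q
      rw [h4]
      exact Submodule.smul_mem _ _ (h3 0 (by omega))
  obtain ⟨g, hg⟩ := (Submodule.mem_span_range_iff_exists_fun K).1 (h2 h1)
  have hg' : ∀ x, ∑ i : Fin q, g i * D^[(i : ℕ) + 1] x = D^[q + 1] x := by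
    intro x
    have := congrFun hg x
    rw [Finset.sum_apply] at this
    simpa using this
  have hz : ∀ n, ∀ i : Fin q, (i : ℕ) = n → g i = 0 := by
    intro n
    induction n using Nat.strong_induction_on with
    | _ n ih =>
      intro i hi
      have h5 := hg' (b ^ (n + 1))
      rw [it_pow D hb, Nat.descFactorial_of_lt (by omega), Nat.cast_zero, zero_mul] at h5
      rw [Finset.sum_eq_single i] at h5
      · rw [it_pow D hb, hi, Nat.descFactorial_self, Nat.sub_self, pow_zero, mul_one] at h5
        rcases mul_eq_zero.1 h5 with h | h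
        · exact h
        · rw [CharP.cast_eq_zero_iff K p] at h
          have := (Nat.Prime.dvd_factorial (Fact.out : p.Prime)).1 h
          omega
      · intro j _ hj
        rcases lt_trichotomy (j : ℕ) n with h | h | h
        · rw [ih j h j rfl, zero_mul]
        · exact absurd (Fin.ext (h.trans hi.symm)) hj
        · rw [it_pow D hb, Nat.descFactorial_of_lt (by omega), Nat.cast_zero, zero_mul, mul_zero]
      · intro h
        exact absurd (Finset.mem_univ i) h
  intro x
  rw [hq, ← hg' x]
  exact Finset.sum_eq_zero fun i _ => by rw [hz i i rfl, zero_mul]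

end

/-- **Package A** -/
theorem pbasis {k K : Type} [Field k] [Field K] [Algebra k K] (p : ℕ) [Fact p.Prime] [CharP K p]
    (δ : Derivation k K K) (c : k) (hc : ∀ x, δ^[p] x = c • δ x) (b : K) (hb : δ b ≠ 0) (x : K) :
    ∃ a : Fin p → K, (∀ i, δ (a i) = 0) ∧ x = ∑ i, a i * b ^ (i : ℕ) := by
  obtain ⟨D, hDdef⟩ : ∃ D : Derivation k K K, D = (δ b)⁻¹ • δ := ⟨_, rfl⟩
  have hD : ∀ x, D x = (δ b)⁻¹ * δ x := fun x => by rw [hDdef]; rfl
  have hDb : D b = 1 := by rw [hD, inv_mul_cancel₀ hb]
  obtain ⟨a, ha0, ha⟩ := decomp p D hDb p le_rfl x (pow_p_zero p δ c hc _ (inv_ne_zero hb) D hD hDb x)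
  refine ⟨fun i => a i, fun i => ?_, ?_⟩
  · have h := ha0 i
    rw [hD] at h
    exact (mul_eq_zero.1 h).resolve_left (inv_ne_zero hb)
  · rw [ha, Finset.sum_range]

end Pool.Agent.Helper8.VF
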